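import Pool.Agent.helper55.NM.Spec

set_option autoImplicit false

namespace Pool.Agent.helper89.NM

open Pool.Agent.NM Finset Nat

theorem PMX_rec (b a : ℕ) (ρ : ℝ) :
    ((b + 1).choose (a + 1) : ℝ) * (ρ ^ (a + 1) * (1 - ρ) ^ (b + 1 - (a + 1))) =
      ρ * ((b.choose a : ℝ) * (ρ ^ a * (1 - ρ) ^ (b - a))) +
      (1 - ρ) * ((b.choose (a + 1) : ℝ) * (ρ ^ (a + 1) * (1 - ρ) ^ (b - (a + 1)))) := by
  have h1 : b + 1 - (a + 1) = b - a := by omega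
  rw [h1, Nat.choose_succ_succ]
  push_cast
  rcases Nat.lt_or_ge b (a + 1) with h | h
  · have h2 : b.choose (a + 1) = 0 := Nat.choose_eq_zero_of_lt h
    rw [h2]
    push_cast
    ring
  · have h3 : b - a = (b - (a + 1)) + 1 := by omega
    rw [h3]
    ring

theorem PMX_all (ρ : ℝ) (h1 : 1 / 3 ≤ ρ) (h2 : ρ ≤ 1 / 2) (b : ℕ) (hb : 3 ≤ b) :
    ∀ a, 1 ≤ a → (b.choose a : ℝ) * (ρ ^ a * (1 - ρ) ^ (b - a)) ≤ 3 * ρ * (1 - ρ) ^ 2 := by
  have hρ0 : 0 ≤ ρ := by linarith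
  have hσ0 : 0 ≤ 1 - ρ := by linarith
  have hK : 0 ≤ 3 * ρ * (1 - ρ) ^ 2 := by positivity
  induction b, hb using Nat.le_induction with
  | base =>
    intro a ha
    rcases Nat.lt_or_ge 3 a with h | h
    · rw [Nat.choose_eq_zero_of_lt h]
      simpa using hK
    · interval_cases a
      · norm_num
        nlinarith
      · have : (Nat.choose 3 2 : ℝ) = 3 := by norm_num [Nat.choose]
        rw [this]
        norm_num
        nlinarith [mul_nonneg hρ0 hσ0]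
      · norm_num
        nlinarith [mul_nonneg hρ0 hσ0, mul_nonneg hρ0 hρ0, mul_nonneg (mul_nonneg hρ0 hρ0) hσ0,
          mul_nonneg hρ0 (mul_nonneg hσ0 hσ0), mul_nonneg hρ0 (sub_nonneg.2 h2)]
  | succ b hb ih =>
    intro a ha
    obtain ⟨a, rfl⟩ : ∃ a', a = a' + 1 := ⟨a - 1, by omega⟩
    rw [PMX_rec]
    have hA := ih (a + 1) (by omega)
    have hB : (b.choose a : ℝ) * (ρ ^ a * (1 - ρ) ^ (b - a)) ≤ 3 * ρ * (1 - ρ) ^ 2 := by
      rcases Nat.eq_zero_or_pos a with h0 | h0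
      · subst h0
        have hC := ih 1 le_rfl
        refine le_trans ?_ hC
        obtain ⟨c, rfl⟩ : ∃ c, b = c + 1 := ⟨b - 1, by omega⟩
        have hb' : (3 : ℝ) ≤ ((c + 1 : ℕ) : ℝ) := by exact_mod_cast hb
        simp only [Nat.choose_zero_right, Nat.choose_one_right, Nat.cast_one, pow_zero, one_mul,
          pow_one, Nat.sub_zero, Nat.add_sub_cancel]
        have hp : 0 ≤ (1 - ρ) ^ c := pow_nonneg hσ0 c
        have hq : 1 - ρ ≤ ((c + 1 : ℕ) : ℝ) * ρ := by nlinarith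
        calc (1 - ρ) ^ (c + 1) = (1 - ρ) * (1 - ρ) ^ c := by ring
          _ ≤ (((c + 1 : ℕ) : ℝ) * ρ) * (1 - ρ) ^ c := mul_le_mul_of_nonneg_right hq hp
          _ = ((c + 1 : ℕ) : ℝ) * (ρ * (1 - ρ) ^ c) := by ring
      · exact ih a h0
    calc ρ * ((b.choose a : ℝ) * (ρ ^ a * (1 - ρ) ^ (b - a))) +
      (1 - ρ) * ((b.choose (a + 1) : ℝ) * (ρ ^ (a + 1) * (1 - ρ) ^ (b - (a + 1))))
        ≤ ρ * (3 * ρ * (1 - ρ) ^ 2) + (1 - ρ) * (3 * ρ * (1 - ρ) ^ 2) :=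
          add_le_add (mul_le_mul_of_nonneg_left hB hρ0) (mul_le_mul_of_nonneg_left hA hσ0)
      _ = 3 * ρ * (1 - ρ) ^ 2 := by ring

theorem PMX : PMX_stmt := by
  intro b a ρ hb ha _ h1 h2
  exact PMX_all ρ h1 h2 b hb a ha

end Pool.Agent.helper89.NM
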